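import Pool.Agent.Helper156.Sub.Border
import Pool.Agent.Helper156.Sub.NoPair
import Pool.Agent.Helper156.Sub.HMPairs

/-!
# The border subrank can exceed the Hilbert-Mumford subrank

We work with `(ℂ³)^{⊗ d}`, `d` odd, `d ≥ 21`.  Write `ω, s` for the functionals
`z ↦ z₂`, `z ↦ z₀ + z₁` on (row) vectors `z ∈ ℂ³` (coordinates `0, 1, 2`).  The tensor, seen as a
multilinear form, is

`T(z) = ∑_a (-1)^a ω(z_a) ∏_{i<a} z_i(0) ∏_{i>a} z_i(1)
  + ∑_{a≠b} [(ω(z_a) s(z_b) - s(z_a) ω(z_b)) H_{ab}(z) + ω(z_a) ω(z_b) G_{ab}(z)]`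

where the `H_{ab}, G_{ab}` are multilinear forms in the `z_j`, `j ≠ a, b`, whose coefficients are
algebraically independent over `ℚ`.

* Along `(1,0,t), (0,1,t)` the `H`-terms vanish, the `G`-terms are `O(t²)` and the alternating
  sum telescopes to `t I_2` because `d` is odd: `I_2` is in the closure of the orbit.
* A one-parameter subgroup moving `T` into the orbit of some `I_r`, `r ≥ 2`, yields for each slot
  two linearly independent functionals `u_j, v_j` such that, for each proper nonempty set `S` of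
  slots, `T(u_S, v_{S^c}) = 0` or `T(v_S, u_{S^c}) = 0`.  These are about `2^{d-1}` linear
  equations for the parameters with coefficients in `ℚ(u, v)`; their rank is larger than the
  transcendence degree `6 d` of `ℚ(u, v)`, a contradiction.
-/

namespace Pool.Agent.Results.MP_5e02e7_ag.BorderExceedsHM

open Pool.Agent.Helper156.Subrank

theorem big_ineq (d : ℕ) (hd : 21 ≤ d) : 2 * (16 * d ^ 2 * (6 * d + 1) + 4 * d + 2) < 2 ^ d := by
  induction d, hd using Nat.le_induction with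
  | base => norm_num
  | succ d hd ih =>
    have h1 : 2 * (16 * (d + 1) ^ 2 * (6 * (d + 1) + 1) + 4 * (d + 1) + 2) ≤
        2 * (2 * (16 * d ^ 2 * (6 * d + 1) + 4 * d + 2)) := by
      obtain ⟨e, rfl⟩ : ∃ e, d = 21 + e := ⟨d - 21, by omega⟩
      ring_nf
      have h2 : 0 ≤ e ^ 3 := Nat.zero_le _
      have h3 : 0 ≤ e ^ 2 := Nat.zero_le _
      omega
    calc _ ≤ 2 * (2 * (16 * d ^ 2 * (6 * d + 1) + 4 * d + 2)) := h1
      _ < 2 * 2 ^ d := by omega
      _ = 2 ^ (d + 1) := by ring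

theorem no_hm (d : ℕ) (hd : 21 ≤ d) (τ : Par d → ℂ) (hτ : AlgebraicIndependent ℚ τ)
    (r : ℕ) (hr2 : 2 ≤ r) (hr3 : r ≤ 3) (lam : ℂˣ →* Grp d 3) (hlam : IsOnePS lam)
    (g : Grp d 3) : ¬ LimZero lam (genT τ) (act g (unitTensor d 3 r)) := by
  intro hlim
  obtain ⟨u, v, x, y, h1, h2, h3, h4, h5, h6, h7⟩ := hm_pairs' (by omega) hr2 hr3 lam hlam
    (genT τ) g hlim 0 1 rfl rfl
  refine no_pairs (by omega) (big_ineq d hd) τ hτ u v x y h1 h2 h3 h4 h5 h6 ?_
  intro σ ht hf
  rcases h7 σ ht hf with h | h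
  · left; exact h
  · right
    rw [← h]
    congr 1
    funext j
    simp only [pick]
    by_cases h8 : σ j = true
    · simp [h8]
    · simp [h8]

/-- **Q1 has a positive answer**: for each odd `d ≥ 21` there is a tensor `T ∈ (ℂ³)^{⊗ d}` such
that `I_2` lies in the closure of the orbit `G · T`, but no one-parameter subgroup of
`G = GL_3(ℂ)^d` moves `T` to a point of the orbit of `I_r` for any `r ≥ 2`.  Hence the border
subrank of `T` is strictly larger than its Hilbert-Mumford subrank, for the literal definition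
(limit equal to `I_r`) and for the coordinate free one (limit in `G · I_r`). -/
theorem result : ∀ d : ℕ, Odd d → 21 ≤ d → ∃ T : Tensor d 3,
    unitTensor d 3 2 ∈ closure (Set.range fun g : Grp d 3 => act g T) ∧
    (∀ r : ℕ, 2 ≤ r → r ≤ 3 → ∀ lam : ℂˣ →* Grp d 3, IsOnePS lam → ∀ g : Grp d 3,
      ¬ LimZero lam T (act g (unitTensor d 3 r))) ∧
    hmSubrankLit T ≤ 1 ∧ hmSubrank T ≤ 1 ∧ 2 ≤ borderSubrank T ∧
    hmSubrankLit T < borderSubrank T ∧ hmSubrank T < borderSubrank T := by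
  intro d hodd hd
  obtain ⟨τ, hτ⟩ := exists_algInd (Par d)
  have hno := no_hm d hd τ hτ
  have e1 : hmSubrankLit (genT τ) ≤ 1 := by
    refine csSup_le' ?_
    rintro r ⟨hr, lam, hlam, hlim⟩
    by_contra h
    refine hno r (by omega) hr lam hlam 1 ?_
    rw [act_one]; exact hlim
  have e2 : hmSubrank (genT τ) ≤ 1 := by
    refine csSup_le' ?_
    rintro r ⟨hr, lam, hlam, g, hlim⟩
    by_contra h
    exact hno r (by omega) hr lam hlam g hlim
  have e3 : 2 ≤ borderSubrank (genT τ) :=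
    le_csSup ⟨3, fun r hr => hr.1⟩ ⟨by norm_num, border_mem hodd τ⟩
  exact ⟨genT τ, border_mem hodd τ, fun r hr2 hr3 lam hlam g => hno r hr2 hr3 lam hlam g,
    e1, e2, e3, by omega, by omega⟩

end Pool.Agent.Results.MP_5e02e7_ag.BorderExceedsHM
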